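import Pool.Agent.H14.TG.CCF
import Pool.Agent.H21.ST2.EUL
import Pool.Agent.H57.ST2.TOP

set_option autoImplicit false

/-!
# MP_51eb24_ag, board tga_modules: row SMC
-/

namespace Pool.Agent.H14.TG

open MvPolynomial Pool.Agent.H2.ST Pool.Agent.H15.TG

section

theorem Gr_equiv {k A Γ Γ' : Type} [Field k] [CommRing A] [Algebra k A] [AddCommGroup Γ]
    [AddCommGroup Γ'] (ε : Γ' ≃+ Γ) {W : Γ → Submodule k A} (h : Gr W) :
    Gr (fun a => W (ε a)) := by
  refine ⟨?_, ?_, ?_, ?_⟩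
  · rw [map_zero]
    exact h.one
  · intro a b f g hf hg
    rw [map_add]
    exact h.mul _ _ _ _ hf hg
  · intro f
    obtain ⟨c, h1, h2⟩ := h.dec f
    refine ⟨Finsupp.equivMapDomain ε.symm.toEquiv c, fun a => ?_, ?_⟩
    · rw [Finsupp.equivMapDomain_apply]
      exact h1 _
    · rw [Finsupp.equivMapDomain_eq_mapDomain, Finsupp.sum_mapDomain_index (fun _ => rfl)
        (fun _ _ _ => rfl)]
      exact h2
  · intro c h1 h2
    have h3 := h.ind (Finsupp.equivMapDomain ε.toEquiv c) (fun a => by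
      rw [Finsupp.equivMapDomain_apply]
      have := h1 (ε.toEquiv.symm a)
      simpa using this) (by
      rw [Finsupp.equivMapDomain_eq_mapDomain, Finsupp.sum_mapDomain_index (fun _ => rfl)
        (fun _ _ _ => rfl)]
      exact h2)
    ext1 a
    have h4 := DFunLike.congr_fun h3 (ε a)
    rw [Finsupp.equivMapDomain_apply] at h4
    simpa using h4

theorem PGr_equiv {k Γ Γ' : Type} [Field k] [AddCommGroup Γ] [AddCommGroup Γ'] {m : ℕ}
    (ε : Γ' ≃+ Γ) {W : Γ → Submodule k (Pol k m)} (h : PGr W) : PGr (fun a => W (ε a)) := by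
  refine ⟨Gr_equiv ε h.toGr, ?_, ?_⟩
  · intro a b f g hf hg
    rw [map_add]
    exact h.pbr _ _ _ _ hf hg
  · intro a ha f hf
    refine h.van (ε a) ?_ f hf
    intro h0
    exact ha (ε.injective (by rw [h0, map_zero]))

variable {k : Type} [Field k] {m : ℕ}

theorem cc_cmp {Γ : Type} [AddCommGroup Γ] {W : Γ → Submodule k (Pol k m)} (h : PGr W)
    (v : Pol k m) : constantCoeff (cmp h.toGr v 0) = constantCoeff v := by
  classical
  conv_rhs => rw [← cmp_sum h.toGr v]
  unfold Finsupp.sum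
  rw [map_sum, Finset.sum_eq_single 0]
  · intro b _ hb
    exact h.van b hb _ (cmp_mem h.toGr v b)
  · intro h0
    rw [Finsupp.notMem_support_iff.1 h0, map_zero]

theorem br_subC (v : Pol k m) (c : k) : br (v - C c) = br v := by
  funext g
  rw [sub_br, C_br, sub_zero]

variable [CharZero k]

theorem low (hTOP : T_TOP) {W : ℤ → Submodule k (Pol k m)} (h : PGr W) (p v : Pol k m)
    (e : ℤ) (hp : p ∈ W e) (hpv : br p v = 0) (hv : LNil v) (a₀ : ℤ) (ha₀ : a₀ ≤ 0)
    (hne : cmp h.toGr (v - C (constantCoeff v)) a₀ ≠ 0) :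
    ∃ (b : Pol k m) (j : ℕ), b ∈ W (-(j : ℤ)) ∧ (¬ ∃ c : k, b = C c) ∧ br p b = 0 ∧
      LNil b := by
  set v0 := v - C (constantCoeff v) with hv0
  have hs : (cmp h.toGr v0).support.Nonempty := ⟨a₀, Finsupp.mem_support_iff.2 hne⟩
  set a := (cmp h.toGr v0).support.min' hs with ha
  have hamem : a ∈ (cmp h.toGr v0).support := Finset.min'_mem _ _
  have hane := Finsupp.mem_support_iff.1 hamem
  have hle : a ≤ a₀ := Finset.min'_le _ _ (Finsupp.mem_support_iff.2 hne)
  have hlow : ∀ b, b < a → cmp h.toGr v0 b = 0 := by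
    intro b hb
    by_contra h1
    have := Finset.min'_le _ _ (Finsupp.mem_support_iff.2 h1)
    omega
  have hcc : constantCoeff v0 = 0 := by
    rw [hv0, map_sub, constantCoeff_C, sub_self]
  refine ⟨cmp h.toGr v0 a, (-a).toNat, ?_, ?_, ?_, ?_⟩
  · have h1 : (-(((-a).toNat : ℕ) : ℤ)) = a := by omega
    rw [h1]
    exact cmp_mem h.toGr v0 a
  · rintro ⟨c, hc⟩
    have h1 : constantCoeff (cmp h.toGr v0 a) = 0 := by
      by_cases h2 : a = 0
      · rw [h2, cc_cmp h, hcc]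
      · exact h.van a h2 _ (cmp_mem h.toGr v0 a)
    rw [hc, constantCoeff_C] at h1
    rw [hc, h1, map_zero] at hane
    exact hane rfl
  · have h1 : br v0 p = 0 := by
      rw [hv0, br_subC, br_anti, hpv, neg_zero]
    have h2 := Pool.Agent.H21.ST2.cmp_br_of_mem h hp v0 a
    rw [h1, map_zero, Finsupp.zero_apply] at h2
    rw [br_anti, ← h2, neg_zero]
  · have h1 : ∀ f, ∃ n : ℕ, (br v0)^[n] f = 0 := by
      rw [hv0, br_subC]
      exact hv
    have h2 := @hTOP k _ _ m ℤᵒᵈ _ _ _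
    exact h2 W h v0 a h1 hlow

theorem smc_main (hTOP : T_TOP) {W : ℤ → Submodule k (Pol k m)} (h : PGr W)
    (p q q' : Pol k m) (e : ℤ) (hp : p ∈ W e) (hpq : br p q = 0) (hpq' : br p q' = 0)
    (hqr : br q q' = 1) (hq : LNil q) (hq' : LNil q') :
    ∃ (b : Pol k m) (j : ℕ), b ∈ W (-(j : ℤ)) ∧ (¬ ∃ c : k, b = C c) ∧ br p b = 0 ∧
      LNil b := by
  classical
  by_cases h1 : ∃ a₀ : ℤ, a₀ ≤ 0 ∧ cmp h.toGr (q - C (constantCoeff q)) a₀ ≠ 0
  · obtain ⟨a₀, h2, h3⟩ := h1
    exact low hTOP h p q e hp hpq hq a₀ h2 h3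
  by_cases h1' : ∃ a₀ : ℤ, a₀ ≤ 0 ∧ cmp h.toGr (q' - C (constantCoeff q')) a₀ ≠ 0
  · obtain ⟨a₀, h2, h3⟩ := h1'
    exact low hTOP h p q' e hp hpq' hq' a₀ h2 h3
  exfalso
  have hb : br (q - C (constantCoeff q)) (q' - C (constantCoeff q')) = 1 := by
    rw [br_subC, br_sub, br_C, sub_zero, hqr]
  have h2 := Pool.Agent.H57.ST2.cmp_br h (q - C (constantCoeff q))
    (q' - C (constantCoeff q')) 0
  rw [hb, cmp_of_mem h.toGr h.one, Finsupp.single_eq_same] at h2
  rw [Finset.sum_eq_zero] at h2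
  · exact one_ne_zero h2
  · intro x hx
    apply Finset.sum_eq_zero
    intro y hy
    rw [if_neg]
    intro hxy
    have hx0 : 0 < x := by
      by_contra h3
      exact h1 ⟨x, by omega, Finsupp.mem_support_iff.1 hx⟩
    have hy0 : 0 < y := by
      by_contra h3
      exact h1' ⟨y, by omega, Finsupp.mem_support_iff.1 hy⟩
    omega

omit [CharZero k] in
theorem LNil_X (s : Fin m ⊕ Fin m) : LNil (X s : Pol k m) := by
  have h0 : ∀ n : ℕ, (br (X s : Pol k m))^[n] 0 = 0 := by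
    intro n
    induction n with
    | zero => rfl
    | succ n ih => rw [Function.iterate_succ_apply, br_zero, ih]
  have key : ∀ n : ℕ, ∀ g : Pol k m, g.totalDegree < n → (br (X s : Pol k m))^[n] g = 0 := by
    intro n
    induction n with
    | zero => intro g hg; omega
    | succ n ih =>
      intro g hg
      rw [Function.iterate_succ_apply]
      by_cases h1 : br (X s) g = 0
      · rw [h1, h0]
      · apply ih
        have h2 := deg_br _ _ h1
        have h3 : (X s : Pol k m).totalDegree = 1 := totalDegree_X s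
        omega
  intro g
  exact ⟨_, key (g.totalDegree + 1) g (Nat.lt_succ_self _)⟩

omit [CharZero k] in
theorem LNil_symp (θ : Pol k m ≃ₐ[k] Pol k m) (hθ : Symp θ) (v : Pol k m) (hv : LNil v) :
    LNil (θ v) := by
  intro g
  obtain ⟨N, hN⟩ := hv (θ.symm g)
  refine ⟨N, ?_⟩
  have key : ∀ n : ℕ, (br (θ v))^[n] (θ (θ.symm g)) = θ ((br v)^[n] (θ.symm g)) := by
    intro n
    induction n with
    | zero => rfl
    | succ n ih =>
      rw [Function.iterate_succ_apply', ih, Function.iterate_succ_apply', hθ]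
  have h1 := key N
  rw [AlgEquiv.apply_symm_apply, hN, map_zero] at h1
  exact h1

end

theorem smc_pos (hTOP : T_TOP) (k : Type) [Field k] [CharZero k]
    (W : (Fin 1 → ℤ) → Submodule k (Pol k 2)) (θ : Pol k 2 ≃ₐ[k] Pol k 2)
    (hW : PGr W) (hθ : Symp θ) (ε : ℤ ≃+ (Fin 1 → ℤ)) (e' : ℤ) (he' : 0 < e')
    (hp : θ (X (Sum.inl 0)) ∈ W (ε e')) :
    ∃ (r : ℕ) (f : Fin r → Pol k 2) (χ : Fin r → Fin 1 → ℤ) (n : Fin r → ℕ), Fam W r f χ n := by
  have h01 : br (X (Sum.inl 0) : Pol k 2) (X (Sum.inl 1)) = 0 := by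
    rw [br_inl, pderiv_X_of_ne (by simp), neg_zero]
  have h02 : br (X (Sum.inl 0) : Pol k 2) (X (Sum.inr 1)) = 0 := by
    rw [br_inr, pderiv_X_of_ne (by simp)]
  have h12 : br (X (Sum.inl 1) : Pol k 2) (X (Sum.inr 1)) = 1 := by
    rw [br_inr, pderiv_X_self]
  have h00 : br (X (Sum.inl 0) : Pol k 2) (X (Sum.inr 0)) = 1 := by
    rw [br_inr, pderiv_X_self]
  have hpn : ¬ ∃ c : k, θ (X (Sum.inl 0)) = C c := by
    rintro ⟨c, hc⟩
    have h1 := hθ (X (Sum.inl 0)) (X (Sum.inr 0))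
    rw [h00, map_one, hc, C_br] at h1
    exact one_ne_zero h1
  obtain ⟨b, j, hb1, hb2, hb3, hb4⟩ := smc_main hTOP (PGr_equiv ε hW) (θ (X (Sum.inl 0)))
    (θ (X (Sum.inl 1))) (θ (X (Sum.inr 1))) e' hp (by rw [← hθ, h01, map_zero])
    (by rw [← hθ, h02, map_zero]) (by rw [← hθ, h12, map_one])
    (LNil_symp θ hθ _ (LNil_X _)) (LNil_symp θ hθ _ (LNil_X _))
  have hb3' : br b (θ (X (Sum.inl 0))) = 0 := by rw [br_anti, hb3, neg_zero]
  refine ⟨2, ![θ (X (Sum.inl 0)), b], ![ε e', ε (-(j : ℤ))], ![j, e'.toNat], ?_, ?_, ?_, ?_,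
    ?_, ?_⟩
  · intro i
    fin_cases i
    · exact hp
    · exact hb1
  · intro i
    fin_cases i
    · exact hpn
    · exact hb2
  · intro i j
    fin_cases i <;> fin_cases j
    · exact br_self _
    · exact hb3
    · exact hb3'
    · exact br_self _
  · intro i
    fin_cases i
    · exact LNil_symp θ hθ _ (LNil_X _)
    · exact hb4
  · refine ⟨1, ?_⟩
    change e'.toNat ≠ 0
    omega
  · rw [Fin.sum_univ_two]
    change (j : ℤ) • ε e' + (e'.toNat : ℤ) • ε (-(j : ℤ)) = 0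
    rw [← map_zsmul, ← map_zsmul, ← map_add]
    have h1 : (j : ℤ) • e' + (e'.toNat : ℤ) • (-(j : ℤ)) = 0 := by
      rw [Int.toNat_of_nonneg he'.le, smul_eq_mul, smul_eq_mul]
      ring
    rw [h1, map_zero]

/-- The integers as the functions on `Fin 1`. -/
def epsF : ℤ ≃+ (Fin 1 → ℤ) where
  toFun j := fun _ => j
  invFun x := x 0
  left_inv _ := rfl
  right_inv x := by
    funext i
    rw [Subsingleton.elim i 0]
  map_add' _ _ := rfl

theorem pf_SMC (hTOP : T_TOP) : T_SMC := by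
  intro k _ _ W θ e hW hθ hp
  rcases lt_trichotomy (e 0) 0 with h | h | h
  · refine smc_pos hTOP k W θ hW hθ ((AddEquiv.neg ℤ).trans epsF) (-(e 0)) (by omega) ?_
    have h1 : ((AddEquiv.neg ℤ).trans epsF) (-(e 0)) = e := by
      funext i
      rw [Subsingleton.elim i 0]
      change - -(e 0) = e 0
      rw [neg_neg]
    rw [h1]
    exact hp
  · have he : e = 0 := by
      funext i
      rw [Subsingleton.elim i 0, h, Pi.zero_apply]
    have h00 : br (X (Sum.inl 0) : Pol k 2) (X (Sum.inr 0)) = 1 := by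
      rw [br_inr, pderiv_X_self]
    refine ⟨1, fun _ => θ (X (Sum.inl 0)), fun _ => e, fun _ => 1, fun _ => hp, ?_, ?_, ?_, ?_,
      ?_⟩
    · rintro i ⟨c, hc⟩
      change θ (X (Sum.inl 0)) = C c at hc
      have h1 := hθ (X (Sum.inl 0)) (X (Sum.inr 0))
      rw [h00, map_one, hc, C_br] at h1
      exact one_ne_zero h1
    · intro i j
      exact br_self _
    · intro i
      exact LNil_symp θ hθ _ (LNil_X _)
    · exact ⟨0, one_ne_zero⟩
    · rw [he]
      simp
  · refine smc_pos hTOP k W θ hW hθ epsF (e 0) h ?_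
    have h1 : epsF (e 0) = e := by
      funext i
      rw [Subsingleton.elim i 0]
      rfl
    rw [h1]
    exact hp

end Pool.Agent.H14.TG
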