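import Pool.Agent.H15.TG.Targets

/-!
MP_51eb24_ag, board tga_modules: rows AI1 and AI2.
-/

set_option autoImplicit false

open MvPolynomial Pool.Agent.H2.ST Pool.Agent.H15.TG

namespace Pool.Agent.H14.TG

/-- The chain rule for a derivation. -/
theorem deriv_aeval {k A σ : Type} [Field k] [CommRing A] [Algebra k A] [Fintype σ]
    (D : Derivation k A A) (u : σ → A) (P : MvPolynomial σ k) :
    D (aeval u P) = ∑ s, aeval u (pderiv s P) * D (u s) := by
  classical
  induction P using MvPolynomial.induction_on with
  | C a => simp
  | add p q hp hq =>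
    simp only [map_add, add_mul, Finset.sum_add_distrib, hp, hq]
  | mul_X p n hp =>
    rw [map_mul, Derivation.leibniz, hp, aeval_X]
    have h1 : ∀ s, aeval u (pderiv s (p * X n)) * D (u s) =
        aeval u (pderiv s p) * D (u s) * u n + aeval u p * (if s = n then D (u s) else 0) := by
      intro s
      by_cases hs : s = n
      · subst hs
        rw [pderiv_mul, map_add, map_mul, map_mul, pderiv_X_self, aeval_X, if_pos rfl, map_one]
        ring
      · rw [pderiv_mul, map_add, map_mul, map_mul, pderiv_X_of_ne (Ne.symm hs), aeval_X,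
          if_neg hs, map_zero]
        ring
    rw [Finset.sum_congr rfl fun s _ => h1 s, Finset.sum_add_distrib, ← Finset.sum_mul,
      ← Finset.mul_sum, Finset.sum_ite_eq' Finset.univ n, if_pos (Finset.mem_univ n)]
    simp only [smul_eq_mul]
    ring

theorem deg_pderiv {k σ : Type} [Field k] (s : σ) (p : MvPolynomial σ k)
    (h0 : p.totalDegree ≠ 0) : (pderiv s p).totalDegree < p.totalDegree := by
  suffices h3 : (pderiv s p).totalDegree ≤ p.totalDegree - 1 by omega
  rw [totalDegree]
  refine Finset.sup_le fun n hn => ?_
  rw [mem_support_iff, coeff_pderiv] at hn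
  have h4 : coeff (n + Finsupp.single s 1) p ≠ 0 := fun h5 => hn (by rw [h5]; simp)
  have h6 := le_totalDegree (mem_support_iff.2 h4)
  rw [Finsupp.sum_add_index' (fun _ => rfl) (fun _ _ _ => rfl),
    Finsupp.sum_single_index rfl] at h6
  omega

/-- A polynomial with zero partial derivative does not involve the variable. -/
theorem notMem_vars {k σ : Type} [Field k] [CharZero k] {s : σ} {p : MvPolynomial σ k}
    (h : pderiv s p = 0) : s ∉ p.vars := by
  classical
  intro hs
  obtain ⟨n, hn, hsn⟩ := (mem_vars_iff_mem_support s).1 hs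
  rw [Finsupp.mem_support_iff] at hsn
  rw [mem_support_iff] at hn
  apply hn
  have h1 := congrArg (coeff (n - Finsupp.single s 1)) h
  rw [coeff_pderiv, coeff_zero] at h1
  have h2 : n - Finsupp.single s 1 + Finsupp.single s 1 = n := by
    apply tsub_add_cancel_of_le
    rw [Finsupp.single_le_iff]
    omega
  rw [h2] at h1
  rcases mul_eq_zero.1 h1 with h3 | h3
  · exact h3
  · exfalso
    have : (((((n - Finsupp.single s 1 : σ →₀ ℕ) s) + 1 : ℕ)) : k) = 0 := by
      push_cast; exact h3
    exact absurd (Nat.cast_eq_zero.1 this) (by omega)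

theorem pf_AI1 : T_AI1 := by
  intro k A ι κ _ _ _ _ _ _ _ J y z D hJ hDJ hDy hdet hy
  set u : ι ⊕ κ → A := Sum.elim y z with hu
  have key : ∀ (n : ℕ) (P : MvPolynomial (ι ⊕ κ) k), P.totalDegree = n → aeval u P ∈ J →
      P = 0 := by
    intro n
    induction n using Nat.strong_induction_on with
    | _ n ih =>
    intro P hPn hP
    by_cases hn : n = 0
    · rw [hn, totalDegree_eq_zero_iff_eq_C] at hPn
      rw [hPn, aeval_C] at hP
      by_contra hP0
      have hc : coeff 0 P ≠ 0 := by
        intro hc
        rw [hc, map_zero] at hPn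
        exact hP0 hPn
      apply hJ.ne_top
      rw [Ideal.eq_top_iff_one]
      have h1 := J.mul_mem_left (algebraMap k A (coeff 0 P)⁻¹) hP
      rwa [← map_mul, inv_mul_cancel₀ hc, map_one] at h1
    · -- the partial derivatives with respect to the second set of variables
      set v : κ → A := fun j => aeval u (pderiv (Sum.inr j) P) with hv
      have hMv : ∀ i, ∑ j, D i (z j) * v j ∈ J := by
        intro i
        have h1 := hDJ i _ hP
        rw [deriv_aeval, Fintype.sum_sum_type] at h1
        have h2 : ∑ j, aeval u (pderiv (Sum.inl j) P) * D i (u (Sum.inl j)) ∈ J :=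
          J.sum_mem fun j _ => J.mul_mem_left _ (hDy i j)
        have h3 := (J.add_mem_iff_right h2).1 h1
        have h4 : ∑ j, D i (z j) * v j =
            ∑ j, aeval u (pderiv (Sum.inr j) P) * D i (u (Sum.inr j)) :=
          Finset.sum_congr rfl fun j _ => by rw [hv]; exact mul_comm _ _
        rw [h4]
        exact h3
      have hvJ : ∀ j, v j ∈ J := by
        intro j
        set M : Matrix κ κ A := Matrix.of fun i j => D i (z j) with hM
        have h1 : M.det * v j = ∑ i, M.adjugate j i * (∑ l, D i (z l) * v l) := by
          have h2 : (M.adjugate * M).mulVec v j = M.det * v j := by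
            rw [Matrix.adjugate_mul, Matrix.smul_mulVec, Matrix.one_mulVec]
            rfl
          rw [← h2, ← Matrix.mulVec_mulVec]
          rfl
        have h3 : M.det * v j ∈ J := by
          rw [h1]
          exact J.sum_mem fun i _ => J.mul_mem_left _ (hMv i)
        exact (hJ.mem_or_mem h3).resolve_left hdet
      have hpd : ∀ j, pderiv (Sum.inr j) P = 0 := by
        intro j
        have h1 := deg_pderiv (Sum.inr j) P (by omega)
        exact ih _ (by omega) (pderiv (Sum.inr j) P) rfl (hvJ j)
      obtain ⟨Q, hQ⟩ := exists_rename_eq_of_vars_subset_range P (Sum.inl : ι → ι ⊕ κ)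
        Sum.inl_injective (by
          intro s hs
          rcases s with i | j
          · exact ⟨i, rfl⟩
          · exact absurd hs (notMem_vars (hpd j)))
      rw [← hQ, aeval_rename] at hP
      have h5 : aeval (u ∘ Sum.inl) Q ∈ J := hP
      have h6 : (u ∘ Sum.inl) = y := by funext i; rfl
      rw [h6] at h5
      rw [← hQ, hy Q h5, map_zero]
  intro P hP
  exact key _ P rfl hP

theorem pf_AI2 : T_AI2 := by
  intro k A ι _ _ _ _ σ y hσ hy
  set u : ι ⊕ Unit → A := Sum.elim y fun _ : Unit => σ with hu
  rw [algebraicIndependent_iff]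
  -- the part without the second variable
  set ev : MvPolynomial (ι ⊕ Unit) k →ₐ[k] MvPolynomial ι k :=
    aeval (Sum.elim X fun _ => 0) with hev
  have hsplit : ∀ P : MvPolynomial (ι ⊕ Unit) k,
      X (Sum.inr ()) ∣ P - rename Sum.inl (ev P) := by
    intro P
    induction P using MvPolynomial.induction_on with
    | C a => simp [hev]
    | add p q hp hq =>
      have h1 : p + q - rename Sum.inl (ev (p + q)) =
          (p - rename Sum.inl (ev p)) + (q - rename Sum.inl (ev q)) := by
        rw [map_add, map_add]; ring
      rw [h1]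
      exact dvd_add hp hq
    | mul_X p s hp =>
      rcases s with i | ⟨⟩
      · have h1 : p * X (Sum.inl i) - rename Sum.inl (ev (p * X (Sum.inl i))) =
            (p - rename Sum.inl (ev p)) * X (Sum.inl i) := by
          rw [map_mul, map_mul, hev, aeval_X]
          simp only [Sum.elim_inl, rename_X]
          ring
        rw [h1]
        exact Dvd.dvd.mul_right hp _
      · have h1 : p * X (Sum.inr ()) - rename Sum.inl (ev (p * X (Sum.inr ()))) =
            p * X (Sum.inr ()) := by
          rw [map_mul, hev, aeval_X]
          simp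
        rw [h1]
        exact dvd_mul_left _ _
  have key : ∀ (n : ℕ) (P : MvPolynomial (ι ⊕ Unit) k), P.totalDegree = n → aeval u P = 0 →
      P = 0 := by
    intro n
    induction n using Nat.strong_induction_on with
    | _ n ih =>
    intro P hPn hP
    obtain ⟨Q, hQ⟩ := hsplit P
    have hPQ : P = rename Sum.inl (ev P) + X (Sum.inr ()) * Q := by rw [← hQ]; ring
    have h1 : aeval u P = aeval y (ev P) + σ * aeval u Q := by
      conv_lhs => rw [hPQ]
      rw [map_add, map_mul, aeval_rename, aeval_X]
      rfl
    rw [hP] at h1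
    have h2 : aeval y (ev P) ∈ Ideal.span {σ} := by
      rw [Ideal.mem_span_singleton]
      exact ⟨-aeval u Q, by linear_combination -h1⟩
    have h3 := hy _ h2
    rw [h3, map_zero, zero_add] at h1 hPQ
    have h4 : aeval u Q = 0 := by
      rcases mul_eq_zero.1 h1.symm with h | h
      · exact absurd h hσ.ne_zero
      · exact h
    by_cases hQ0 : Q = 0
    · rw [hPQ, hQ0, mul_zero]
    · have h5 : P.totalDegree = 1 + Q.totalDegree := by
        conv_lhs => rw [hPQ]
        rw [totalDegree_mul_of_isDomain (X_ne_zero _) hQ0, totalDegree_X]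
      exact absurd (ih Q.totalDegree (by omega) Q rfl h4) hQ0
  intro P hP
  exact key _ P rfl hP

end Pool.Agent.H14.TG
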