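import Pool.Agent.H15.TG.Targets2
import Pool.Agent.H2.ST.Basic

set_option autoImplicit false

/-!
# MP_51eb24_ag, board tga_modules: row CCF
-/

namespace Pool.Agent.H14.TG

open MvPolynomial Pool.Agent.H2.ST Pool.Agent.H15.TG

section

variable {k : Type} [Field k] {m : ℕ}

/-- The bracket with `v` is locally nilpotent. -/
def LNil (v : Pol k m) : Prop := ∀ g : Pol k m, ∃ N : ℕ, (br v)^[N] g = 0

/-- The operator `g ↦ u {v, g}`. -/
noncomputable def opE (u v : Pol k m) : Module.End k (Pol k m) :=
  LinearMap.mulLeft k u * (ad v : Derivation k (Pol k m) (Pol k m)).toLinearMap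

theorem opE_apply (u v g : Pol k m) : opE u v g = u * br v g := by
  unfold opE
  rw [Module.End.mul_apply, LinearMap.mulLeft_apply]
  change u * ad v g = _
  rw [ad_apply]

theorem opE_pow (u v : Pol k m) (h : br v u = 0) (n : ℕ) (g : Pol k m) :
    (opE u v ^ n) g = u ^ n * (br v)^[n] g := by
  induction n with
  | zero => simp
  | succ n ih =>
    rw [pow_succ', Module.End.mul_apply, ih, opE_apply, br_mul, br_pow, h, mul_zero, mul_zero,
      add_zero, Function.iterate_succ_apply', pow_succ]
    ring

theorem opE_comm (a b : Pol k m) (h : br a b = 0) : Commute (opE a b) (opE b a) := by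
  have h' : br b a = 0 := by rw [br_anti, h, neg_zero]
  apply LinearMap.ext
  intro g
  rw [Module.End.mul_apply, Module.End.mul_apply, opE_apply, opE_apply, opE_apply, opE_apply,
    br_mul, br_mul, br_self, br_self, jac a b g, h, zero_br, zero_add]
  ring

theorem LNil_mul (a b : Pol k m) (h : br a b = 0) (ha : LNil a) (hb : LNil b) :
    LNil (a * b) := by
  have h' : br b a = 0 := by rw [br_anti, h, neg_zero]
  intro g
  obtain ⟨p, hp⟩ := ha g
  obtain ⟨q, hq⟩ := hb g
  have hA : (opE a b ^ q) g = 0 := by rw [opE_pow a b h', hq, mul_zero]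
  have hB : (opE b a ^ p) g = 0 := by rw [opE_pow b a h, hp, mul_zero]
  have hc := opE_comm a b h
  have hsum : ∀ n, (br (a * b))^[n] g = ((opE a b + opE b a) ^ n) g := by
    intro n
    induction n with
    | zero => simp
    | succ n ih =>
      rw [Function.iterate_succ_apply', ih, pow_succ', Module.End.mul_apply,
        LinearMap.add_apply, opE_apply, opE_apply, mul_br]
  refine ⟨q + p, ?_⟩
  rw [hsum, hc.add_pow, LinearMap.sum_apply]
  apply Finset.sum_eq_zero
  intro i hi
  rw [Finset.mem_range] at hi
  have key : (opE a b ^ i * opE b a ^ (q + p - i)) g = 0 := by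
    rcases Nat.lt_or_ge i q with h1 | h1
    · rw [Module.End.mul_apply]
      have h2 : q + p - i = (q - i) + p := by omega
      rw [h2, pow_add, Module.End.mul_apply, hB, map_zero, map_zero]
    · rw [(hc.pow_pow i (q + p - i)).eq, Module.End.mul_apply]
      have h2 : i = (i - q) + q := by omega
      rw [h2, pow_add, Module.End.mul_apply, hA, map_zero, map_zero]
  rw [← nsmul_eq_mul', LinearMap.smul_apply, key, smul_zero]

theorem LNil_pow (a : Pol k m) (ha : LNil a) (n : ℕ) : LNil (a ^ n) := by
  intro g
  obtain ⟨N, hN⟩ := ha g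
  refine ⟨N, ?_⟩
  have h0 : br a ((n : Pol k m) * a ^ (n - 1)) = 0 := by
    rw [br_mul, br_pow, br_self, mul_zero, mul_zero, zero_add]
    have : ((n : ℕ) : Pol k m) = C (n : k) := by simp
    rw [this, br_C, mul_zero]
  have hop : ∀ l, (br (a ^ n))^[l] g = (opE ((n : Pol k m) * a ^ (n - 1)) a ^ l) g := by
    intro l
    induction l with
    | zero => simp
    | succ l ih =>
      rw [Function.iterate_succ_apply', ih, pow_succ', Module.End.mul_apply, opE_apply,
        br_anti, br_pow, br_anti _ a]
      ring
  rw [hop, opE_pow _ _ h0, hN, mul_zero]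

theorem br_prod_zero {r : ℕ} (f : Fin r → Pol k m) (n : Fin r → ℕ) (p : Pol k m)
    (h : ∀ i, br p (f i) = 0) (s : Finset (Fin r)) : br p (∏ i ∈ s, f i ^ n i) = 0 := by
  classical
  induction s using Finset.induction_on with
  | empty => rw [Finset.prod_empty, br_one]
  | insert i s hi ih => rw [Finset.prod_insert hi, br_mul, ih, br_pow, h, mul_zero, mul_zero,
      mul_zero, add_zero]

end

theorem pf_CCF : T_CCF := by
  intro k _ _ m r f n hc hl
  classical
  have key : ∀ s : Finset (Fin r), LNil (∏ i ∈ s, f i ^ n i) := by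
    intro s
    induction s using Finset.induction_on with
    | empty =>
      intro g
      refine ⟨1, ?_⟩
      rw [Finset.prod_empty, Function.iterate_one, br_anti, br_one, neg_zero]
    | insert i s hi ih =>
      rw [Finset.prod_insert hi]
      refine LNil_mul _ _ ?_ (LNil_pow _ (hl i) _) ih
      rw [br_anti, br_pow, br_anti _ (f i), br_prod_zero f n (f i) (fun j => hc i j) s]
      simp
  exact key Finset.univ

end Pool.Agent.H14.TG
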